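import Pool.Agent.T9h80.IP.W7

/-!
# (A3) Use of the axiom `link`
-/

set_option autoImplicit false

namespace Pool.Agent.T9h80.IP

open Pool.Agent.TH672 (Fm Str upd num digits varStr LogK ReplK Sw Pv)
open Pool.Agent.TH672.Form (ren)
open Pool.Agent.TH636.BC
open Pool.Agent.T9h6.BC (sz cl sz_imp sz_all sz_pos TD fo pp subst_self freeFor_self)
open Pool.Agent.TH690.J100 (subst_of_not_free)
open Pool.Agent.T9h80.IO (freeFor_of_not_free)
open Pool.Agent.T9h88.IO
open Pool.Agent.TH838.J1549 (free_inst)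

/-- replacement of the first argument -/
theorem ppRepl1 {ι : Type} {Γ : ι → List Fml} {f : ι → ℕ} (j x : ℕ) (n : ι → ℕ) (m : ι → ℕ)
    (hn : ∀ i, n i ≤ f i) (hm : ∀ i, m i ≤ f i + 60) : PP Γ f fun i =>
      (Fm.eq (n i + VB) x).imp ((o2 j (n i + VB) (m i)).fm.imp (o2 j x (m i)).fm) := by
  have hVB : VB = 60 := rfl
  refine ⟨3000 + 30 * x + 30 * j, fun i => (Proves.log (.repl _ _ _ _ (.op (.inr ⟨rfl, rfl⟩)
    (.inl rfl) (.inl rfl) (.inl rfl)))).mono ?_⟩
  have h0 := hn i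
  have h1 := hm i
  have h3 := mul_pb (2000 + 20 * x + 20 * j) 1 (f i)
  have h5 : pb (2000 + 20 * x + 20 * j + 1) (f i) ≤ pb (3000 + 30 * x + 30 * j) (f i) :=
    pb_le (by omega) le_rfl
  have h6 : (2000 + 20 * x + 20 * j) * (f i + 2) ≤ (2000 + 20 * x + 20 * j) * pb 1 (f i) := by
    refine Nat.mul_le_mul_left _ ?_
    rw [pb, pow_one]
  simp only [sz_imp, T9h6.BC.sz_eq, T9h6.BC.sz_op]
  nlinarith

/-- replacement of the second argument -/
theorem ppRepl2 {ι : Type} {Γ : ι → List Fml} {f : ι → ℕ} (j x : ℕ) (n : ι → ℕ) (m : ι → ℕ)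
    (hn : ∀ i, n i ≤ f i) (hm : ∀ i, m i ≤ f i + 60) : PP Γ f fun i =>
      (Fm.eq (n i + VB) x).imp ((o2 j (m i) (n i + VB)).fm.imp (o2 j (m i) x).fm) := by
  have hVB : VB = 60 := rfl
  refine ⟨3000 + 30 * x + 30 * j, fun i => (Proves.log (.repl _ _ _ _ (.op (.inl rfl)
    (.inr ⟨rfl, rfl⟩) (.inr ⟨rfl, rfl⟩) (.inr ⟨rfl, rfl⟩)))).mono ?_⟩
  have h0 := hn i
  have h1 := hm i
  have h3 := mul_pb (2000 + 20 * x + 20 * j) 1 (f i)
  have h5 : pb (2000 + 20 * x + 20 * j + 1) (f i) ≤ pb (3000 + 30 * x + 30 * j) (f i) :=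
    pb_le (by omega) le_rfl
  have h6 : (2000 + 20 * x + 20 * j) * (f i + 2) ≤ (2000 + 20 * x + 20 * j) * pb 1 (f i) := by
    refine Nat.mul_le_mul_left _ ?_
    rw [pb, pow_one]
  simp only [sz_imp, T9h6.BC.sz_eq, T9h6.BC.sz_op]
  nlinarith

theorem SP.eqn {ι : Type} {f : ι → ℕ} (x : ℕ) (n : ι → ℕ) (hn : ∀ i, n i ≤ f i) :
    SP f fun i => Fm.eq x (n i + VB) := by
  have hVB : VB = 60 := rfl
  refine SP.le (c := 1000 + 10 * x) fun i => ?_
  have h0 := hn i
  simp only [T9h6.BC.sz_eq]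
  nlinarith

/-- (A3) -/
theorem aLink : ALink := by
  intro ι Γ Δ D P n x hP hR hE hA hc hn hx h1 h2 h3
  have hVB : VB = 60 := rfl
  have hL : ∀ i, (D i).M < (D i).L := fun i => (D i).h.numlt
  have hcL : ∀ i, code (Δ i) ≤ (D i).L := fun i => (hc i).trans (hL i).le
  have hnL : ∀ i, n i ≤ (D i).L := fun i => (hn i).trans (hL i).le
  have hxL : ∀ i, x i ≤ (D i).L := fun i => (hx i).trans (hL i).le
  have nfo : ∀ x, x ≠ 2 → x ≠ 3 → ¬ (off P).Free x := fun x h2 h3 h => by
    rcases free_off hP h with h | h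
    · exact h2 h
    · exact h3 h
  -- the axiom and its instances
  have a0 : PP Γ (fun i => (D i).L) fun _ => link P :=
    ⟨sz (link P), fun i => (Proves.ax (hA i)).mono (const_le_pb _ _)⟩
  have a1 := a0.inst (y := fun _ => 2) (fun i => by omega) (fun i => freeFor_self _)
  simp only [subst_self] at a1
  have a2 := a1.inst (y := fun _ => 3) (fun i => by omega) (fun i => freeFor_self _)
  simp only [subst_self] at a2
  have a3 := a2.inst (y := fun i => x i + VB) (fun i => by have := hxL i; omega)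
    (fun i => ⟨trivial, trivial, trivial, freeFor_of_not_free _ (nfo 5 (by omega) (by omega))⟩)
  have e3 : ∀ y : ℕ, (Fm.imp (o2 iLe 2 3).fm (.imp (o2 iLk 3 5).fm (.imp (o2 iC 2 5).fm
      (off P)))).subst 5 y = .imp (o2 iLe 2 3).fm (.imp (o2 iLk 3 y).fm (.imp (o2 iC 2 y).fm
      (off P))) := by
    intro y
    have := subst_of_not_free (y := y) (nfo 5 (by omega) (by omega))
    simp only [Fm.subst, At.fm, ren] at this ⊢
    simp only [this]
    simp
  rw [show (fun i => _) = _ from funext fun i => e3 _] at a3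
  -- equalities
  have s2 := ppSymm (Γ := Γ) (f := fun i => (D i).L) 2 (fun i => code (Δ i)) hcL
  have s3 := ppSymm (Γ := Γ) (f := fun i => (D i).L) 3 n hnL
  have r1 := (s2.trans (ppRepl1 iLe 2 (fun i => code (Δ i)) (fun i => n i + VB) hcL
    (fun i => by have := hnL i; omega)))
  have r1' := (s3.trans (ppRepl2 iLe 3 n (fun _ => 2) hnL (fun i => by omega)))
  have r2 := (s3.trans (ppRepl1 iLk 3 n (fun i => x i + VB) hnL
    (fun i => by have := hxL i; omega)))
  have r3 := (s2.trans (ppRepl1 iC 2 (fun i => code (Δ i)) (fun i => x i + VB) hcL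
    (fun i => by have := hxL i; omega)))
  have sE2 := SP.eqn (f := fun i => (D i).L) 2 (fun i => code (Δ i)) hcL
  have sE3 := SP.eqn (f := fun i => (D i).L) 3 n hnL
  have sχ := sp_chi D
  -- the premises
  have u1 : PP Γ (fun i => (D i).L) fun i => (D i).χ.imp ((Fm.eq 2 (code (Δ i) + VB)).imp
      ((Fm.eq 3 (n i + VB)).imp (o2 iLe 2 3).fm)) :=
    (h1.trans (ppSwap r1)).transr (PP.k sχ (ppSwap r1'))
  have u2 : PP Γ (fun i => (D i).L) fun i => (D i).χ.imp ((Fm.eq 2 (code (Δ i) + VB)).imp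
      ((Fm.eq 3 (n i + VB)).imp (o2 iLk 3 (x i + VB)).fm)) :=
    PP.kr sE2 (h2.trans (ppSwap r2))
  have u3 : PP Γ (fun i => (D i).L) fun i => (D i).χ.imp ((Fm.eq 2 (code (Δ i) + VB)).imp
      ((Fm.eq 3 (n i + VB)).imp (o2 iC 2 (x i + VB)).fm)) :=
    (PP.kr sE3 (h3.trans (ppSwap r3))).perm
  have v1 := u1.unexp.unexp
  have v2 := u2.unexp.unexp
  have v3 := u3.unexp.unexp
  have v4 := ((PP.k v1.sp.left a3).s v1 |>.s v2 |>.s v3)
  have v5 := (v4.exp (sχ.and sE2) sE3).exp sχ sE2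
  have g1 := ppInstI hR (by omega) (by omega) (by omega) (fun i => nfo _ (by omega) (by omega))
    (fun i => nfo _ (by omega) (by omega)) (fun i h => by simp only [Fm.Free] at h; omega)
    (fun i h => by simp only [Fm.Free] at h; omega)
    (fun i h => by simp only [Fm.Free] at h; omega) hc v5
  -- the second numeral
  have sT : SP (fun i => (D i).L) fun _ => (Fm.imp .bot .bot : Fml) := SP.const _
  have g2 := (PP.kr sT g1.unexp).exp sχ sE3
  have nfc : ∀ (i : ι) (y : ℕ), (con P (Δ i)).Free y → y = 3 := by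
    intro i y h
    have h1 := free_inst h
    have h2 := free_off hP h1.2.2
    omega
  have g3 := ppInstI hR (by omega) (by omega) (by omega)
    (fun i h => by have := nfc i _ h; omega) (fun i h => by have := nfc i _ h; omega)
    (fun i h => by simp [Fm.Free] at h) (fun i h => by simp [Fm.Free] at h)
    (fun i h => by simp [Fm.Free] at h) hn g2
  have hT : PP Γ (fun i => (D i).L) fun _ => (Fm.imp .bot .bot : Fml) :=
    PP.taut (.imp (pp 0) (pp 0)) (by intro S v; simp only [Fm.sat_imp]; tauto)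
      (SP.const .bot) (SP.const .bot) (SP.const .bot) (SP.const .bot) fun _ _ => rfl
  have g4 := g3.s (PP.k sχ hT)
  refine ppElim hR hE (fun i => ?_) g4
  intro y h
  have h1 := free_inst h
  have h2 := nfc i y h1.2.2
  omega

end Pool.Agent.T9h80.IP
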