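import Pool.Agent.T9h88.IO.Asm
import Pool.Agent.T9h21.IO.InstI
import Pool.Agent.T9h21.IO.InstE
import Pool.Agent.T9h71.IO.Engine
import Pool.Agent.T9h80.IO.Names

/-!
# Rules for families of formulas: contexts, numerals, elimination of contexts
-/

set_option autoImplicit false

namespace Pool.Agent.T9h80.IP

open Pool.Agent.TH672 (Fm Str upd num digits varStr LogK ReplK Sw Pv)
open Pool.Agent.TH672.Form (ren)
open Pool.Agent.TH636.BC
open Pool.Agent.T9h6.BC (sz cl sz_imp sz_all sz_pos TD fo pp subst_self freeFor_self)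
open Pool.Agent.TH690.J100 (subst_of_not_free)
open Pool.Agent.T9h88.IO
open Pool.Agent.T9h71.IO (sEngine)
open Pool.Agent.T9h80.IO (sNames freeFor_of_not_free sElim)
open Pool.Agent.T9h21.IO (instI instE)

/-- no variable of a context is below `60` -/
theorem nf_chi (d : CD) {x : ℕ} (hx : x < VB) : ¬ d.χ.Free x := (sNames.2 d.N d.h.good).2.2 x hx

theorem sz_chi (d : CD) : sz d.χ ≤ pb 12 d.L := by
  have h := (sNames.2 d.N d.h.good).2.1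
  refine h.trans ?_
  have e : pb 12 d.L = (d.L + 2) ^ 10 * (d.L + 2) ^ 2 := by rw [pb, ← pow_add]
  have h1 : 1024 ≤ (d.L + 2) ^ 10 := by
    calc (1024 : ℕ) = 2 ^ 10 := by norm_num
      _ ≤ (d.L + 2) ^ 10 := Nat.pow_le_pow_left (by omega) 10
  rw [e]
  exact Nat.mul_le_mul (by omega) (Nat.pow_le_pow_left (by have : d.L = d.N.length := rfl; omega) 2)

theorem sp_chi {ι : Type} (D : ι → CD) : SP (fun i => (D i).L) fun i => (D i).χ :=
  ⟨12, fun i => sz_chi (D i)⟩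

/-- projection -/
theorem proj : ∃ C, ∀ (Γ : List Fml) (d : CD), ∀ a ∈ d.N,
    Proves Γ (pb C d.L) (d.χ.imp (a.ren (· + VB)).fm) := by
  obtain ⟨C, hC⟩ := sEngine [] (by simp)
  refine ⟨(15 + 2) * C, fun Γ d a ha => ?_⟩
  have h := hC Γ d.N d.N.length a (by simp) (sNames.2 d.N d.h.good).1 (.base ha)
  refine h.mono ((pb_le le_rfl ?_).trans (pb_comp C 15 d.L))
  have h1 := sz_chi d
  have h2 := le_pb (C := 1) d.L le_rfl
  have h3 := pb_add 12 1 d.L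
  have h4 : pb (12 + 1 + 1) d.L ≤ pb 15 d.L := pb_le (by omega) le_rfl
  have e1 : d.χ = ctx d.N := rfl
  have e2 : d.L = d.N.length := rfl
  rw [← e1, ← e2]
  omega

/-- proofs of formulas with numerals -/
theorem ppInstI {ι : Type} {Γ : ι → List Fml} {D : ι → CD} {φ ψ : ι → Fml} {x : ℕ} {n : ι → ℕ}
    (hΓ : ∀ i, ∀ ψ ∈ robinson, ψ ∈ Γ i) (hx0 : x ≠ 0) (hx1 : x ≠ 1) (hxV : x < VB)
    (hφ0 : ∀ i, ¬ (φ i).Free 0) (hφ1 : ∀ i, ¬ (φ i).Free 1)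
    (hψ0 : ∀ i, ¬ (ψ i).Free 0) (hψ1 : ∀ i, ¬ (ψ i).Free 1) (hψx : ∀ i, ¬ (ψ i).Free x)
    (hn : ∀ i, n i ≤ (D i).M)
    (h : PP Γ (fun i => (D i).L) fun i => (D i).χ.imp ((Fm.eq x (n i + VB)).imp
      ((ψ i).imp (φ i)))) :
    PP Γ (fun i => (D i).L) fun i => (D i).χ.imp ((ψ i).imp (inst x (n i) (φ i))) := by
  obtain ⟨C, hC⟩ := instI
  obtain ⟨C1, h1⟩ := proj
  obtain ⟨C2, h2⟩ := h
  have hVB : VB = 60 := rfl
  refine ⟨(C1 + C2 + 2 + 2) * C, fun i => ?_⟩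
  have m1 : pb C1 (D i).L ≤ pb (C1 + C2) (D i).L := pb_le (by omega) le_rfl
  have m2 : pb C2 (D i).L ≤ pb (C1 + C2) (D i).L := pb_le (by omega) le_rfl
  have k := hC (Γ i) (D i).χ (φ i) (ψ i) (· + VB) x (n i) (pb (C1 + C2) (D i).L) (hΓ i) hx0 hx1
    (hφ0 i) (hφ1 i) (nf_chi _ (by omega)) (nf_chi _ (by omega)) (nf_chi _ hxV) (hψ0 i) (hψ1 i)
    (hψx i) (fun j _ => ⟨by omega, by omega, by omega⟩)
    ((h1 (Γ i) (D i) _ (D i).h.zero).mono m1)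
    (fun j hj => (h1 (Γ i) (D i) _ ((D i).h.succ j (by have := hn i; omega))).mono m1)
    ((h2 i).mono m2)
  refine k.mono ((pb_le le_rfl ?_).trans (pb_comp C (C1 + C2 + 2) (D i).L))
  have h3 := pb_add (C1 + C2) 1 (D i).L
  have h4 := le_pb (C := 1) (D i).L le_rfl
  have h5 := hn i
  have h6 : (D i).M < (D i).L := (D i).h.numlt
  have h7 : pb (C1 + C2 + 1 + 1) (D i).L = pb (C1 + C2 + 2) (D i).L := rfl
  omega

/-- use of formulas with numerals -/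
theorem ppInstE {ι : Type} {Γ : ι → List Fml} {D : ι → CD} {φ ψ : ι → Fml} {x : ℕ} {n : ι → ℕ}
    (hx0 : x ≠ 0) (hx1 : x ≠ 1) (hxV : x < VB)
    (hφ0 : ∀ i, ¬ (φ i).Free 0) (hφ1 : ∀ i, ¬ (φ i).Free 1)
    (hψ0 : ∀ i, ¬ (ψ i).Free 0) (hψ1 : ∀ i, ¬ (ψ i).Free 1) (hψx : ∀ i, ¬ (ψ i).Free x)
    (hn : ∀ i, n i ≤ (D i).M)
    (h : PP Γ (fun i => (D i).L) fun i => (D i).χ.imp ((Fm.eq x (n i + VB)).imp
      ((φ i).imp (ψ i)))) :
    PP Γ (fun i => (D i).L) fun i => (D i).χ.imp ((inst x (n i) (φ i)).imp (ψ i)) := by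
  obtain ⟨C, hC⟩ := instE
  obtain ⟨C1, h1⟩ := proj
  obtain ⟨C2, h2⟩ := h
  have hVB : VB = 60 := rfl
  refine ⟨(C1 + C2 + 2 + 2) * C, fun i => ?_⟩
  have m1 : pb C1 (D i).L ≤ pb (C1 + C2) (D i).L := pb_le (by omega) le_rfl
  have m2 : pb C2 (D i).L ≤ pb (C1 + C2) (D i).L := pb_le (by omega) le_rfl
  have k := hC (Γ i) (D i).χ (φ i) (ψ i) (· + VB) x (n i) (pb (C1 + C2) (D i).L) hx0 hx1
    (hφ0 i) (hφ1 i) (nf_chi _ (by omega)) (nf_chi _ (by omega)) (nf_chi _ hxV) (hψ0 i) (hψ1 i)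
    (hψx i) (fun j _ => ⟨by omega, by omega, by omega⟩)
    ((h1 (Γ i) (D i) _ (D i).h.zero).mono m1)
    (fun j hj => (h1 (Γ i) (D i) _ ((D i).h.succ j (by have := hn i; omega))).mono m1)
    ((h2 i).mono m2)
  refine k.mono ((pb_le le_rfl ?_).trans (pb_comp C (C1 + C2 + 2) (D i).L))
  have h3 := pb_add (C1 + C2) 1 (D i).L
  have h4 := le_pb (C := 1) (D i).L le_rfl
  have h5 := hn i
  have h6 : (D i).M < (D i).L := (D i).h.numlt
  have h7 : pb (C1 + C2 + 1 + 1) (D i).L = pb (C1 + C2 + 2) (D i).L := rfl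
  omega

/-- elimination of the context -/
theorem ppElim {ι : Type} {Γ : ι → List Fml} {D : ι → CD} {φ : ι → Fml}
    (hR : ∀ i, ∀ ψ ∈ robinson, ψ ∈ Γ i) (hE : ∀ i, ∀ ψ ∈ ExAx, ψ ∈ Γ i)
    (hφ : ∀ i, (φ i).Closed)
    (h : PP Γ (fun i => (D i).L) fun i => (D i).χ.imp (φ i)) :
    PP Γ (fun i => (D i).L) φ := by
  obtain ⟨C, hC⟩ := sElim
  obtain ⟨C1, h1⟩ := h
  refine ⟨(C1 + 2) * C, fun i => ?_⟩
  have k := hC (Γ i) (D i).N (pb C1 (D i).L) (φ i) (hR i) (hE i) (D i).h.good (hφ i) (h1 i)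
  exact k.mono (pb_comp C C1 (D i).L)

/-- the atomic formulas `n2` -/
theorem nf_n2 {i a b x : ℕ} (hx : x < VB) : ¬ (n2 i a b).Free x := by
  have hVB : VB = 60 := rfl
  intro h
  simp only [n2, At.fm, Fm.Free] at h
  omega

/-- symmetry of the equality -/
theorem ppSymm {ι : Type} {Γ : ι → List Fml} {f : ι → ℕ} (x : ℕ) (n : ι → ℕ)
    (hn : ∀ i, n i ≤ f i) : PP Γ f fun i =>
      (Fm.eq x (n i + VB)).imp (.eq (n i + VB) x) := by
  have hVB : VB = 60 := rfl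
  have r1 : PP Γ f fun i => (Fm.eq x (n i + VB)).imp
      ((Fm.eq x x).imp (.eq (n i + VB) x)) := by
    refine ⟨1000 + 10 * x, fun i => (Proves.log (.repl _ _ _ _ (.eq (.inr ⟨rfl, rfl⟩)
      (.inl rfl)))).mono ?_⟩
    have h1 := hn i
    have h3 := mul_pb (400 + 5 * x) 1 (f i)
    have h4 := le_pb (C := 1) (f i) le_rfl
    have h5 : pb (400 + 5 * x + 1) (f i) ≤ pb (1000 + 10 * x) (f i) := pb_le (by omega) le_rfl
    have h6 : (400 + 5 * x) * (f i + 2) ≤ (400 + 5 * x) * pb 1 (f i) := by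
      refine Nat.mul_le_mul_left _ ?_
      rw [pb, pow_one]
    simp only [sz_imp, T9h6.BC.sz_eq]
    nlinarith
  have r2 : PP Γ f fun _ => (Fm.eq x x : Fml) :=
    ⟨sz (Fm.eq x x : Fml), fun i => (Proves.log (.refl x)).mono (const_le_pb _ _)⟩
  exact r1.s (PP.k r1.sp.left r2)

end Pool.Agent.T9h80.IP
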