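import Pool.Agent.T9h88.IP.Spec
import Pool.Agent.T9h80.IP.Pre

/-!
# (W7) Use of the axiom about the code of the base theory
-/

set_option autoImplicit false

namespace Pool.Agent.T9h80.IP

open Pool.Agent.TH672 (Fm Str upd num digits varStr LogK ReplK Sw Pv)
open Pool.Agent.TH672.Form (ren)
open Pool.Agent.TH636.BC
open Pool.Agent.T9h6.BC (sz cl sz_imp sz_all sz_pos TD fo pp subst_self freeFor_self)
open Pool.Agent.T9h88.IO
open Pool.Agent.T9h88.IP

theorem ppSwap {ι : Type} {Γ : ι → List Fml} {f : ι → ℕ} {α β γ : ι → Fml}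
    (h : PP Γ f fun i => (α i).imp ((β i).imp (γ i))) :
    PP Γ f fun i => (β i).imp ((α i).imp (γ i)) := by
  refine PP.mp (PP.taut (.imp (.imp (pp 0) (.imp (pp 1) (pp 2)))
    (.imp (pp 1) (.imp (pp 0) (pp 2)))) ?_ h.sp.left h.sp.right.left h.sp.right.right h.sp.left
      fun _ _ => rfl) h
  intro S v; simp only [Fm.sat_imp]; tauto

theorem nf_n2o1 {i j a b c x : ℕ} (hx : x < VB) :
    ¬ ((n2 i a b).imp (o1 j (c + VB)).fm).Free x := by
  have hVB : VB = 60 := rfl
  intro h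
  simp only [n2, At.fm, Fm.Free] at h
  omega

/-- (W7) -/
theorem w7 : W7 := by
  intro ι Γ D z w hA hz hw hAf
  have hVB : VB = 60 := rfl
  have hL : ∀ i, (D i).M < (D i).L := fun i => (D i).h.numlt
  have q1 := ppSymm (Γ := Γ) (f := fun i => (D i).L) 29 z
    (fun i => by have := hz i; have := hL i; omega)
  have q2 : PP Γ (fun i => (D i).L) fun i => (Fm.eq (z i + VB) 29).imp
      ((n2 iAf (z i) (w i)).imp (o2 iAf 29 (w i + VB)).fm) := by
    refine ⟨1000, fun i => (Proves.log (.repl _ _ _ _ (.op (.inr ⟨rfl, rfl⟩) (.inl rfl)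
      (.inl rfl) (.inl rfl)))).mono ?_⟩
    have h0 := hz i
    have h1 := hw i
    have h2 := hL i
    have h3 := mul_pb 900 1 (D i).L
    have h4 := le_pb (C := 1) (D i).L le_rfl
    have h5 : pb (900 + 1) (D i).L ≤ pb 1000 (D i).L := pb_le (by omega) le_rfl
    simp only [sz_imp, T9h6.BC.sz_eq, T9h6.BC.sz_op, iAf]
    omega
  have q3 := q1.trans q2
  have a1 : PP Γ (fun i => (D i).L) fun i =>
      γ0.imp ((o2 iAf 29 (w i + VB)).fm.imp (o1 iGB (w i + VB)).fm) := by
    refine ⟨1000, fun i => ?_⟩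
    have h := LogK.inst 2 (w i + VB) (.imp (o2 iAf 29 2).fm (o1 iGB 2).fm) (by
      simp [Fm.FreeFor, At.fm])
    have e : (Fm.imp (o2 iAf 29 2).fm (o1 iGB 2).fm : Fml).subst 2 (w i + VB) =
        (o2 iAf 29 (w i + VB)).fm.imp (o1 iGB (w i + VB)).fm := by
      simp [Fm.subst, At.fm, ren]
    rw [e] at h
    refine (Proves.log h).mono ?_
    have h1 := hw i
    have h2 := hL i
    have h3 := mul_pb 900 1 (D i).L
    have h4 := le_pb (C := 1) (D i).L le_rfl
    have h5 : pb (900 + 1) (D i).L ≤ pb 1000 (D i).L := pb_le (by omega) le_rfl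
    simp only [sz_imp, sz_all, At.fm, T9h6.BC.sz_eq, T9h6.BC.sz_op, iAf, iGB]
    omega
  have b1 := ppSwap a1
  have b2 := q3.transr (PP.k q3.sp.left b1)
  have b3 := b2.perm
  have b4 := PP.k (sp_chi D) b3
  have g1 := ppInstE (by omega) (by omega) (by omega) (fun i => by simp [γ0, Fm.Free, At.fm])
    (fun i => by simp [γ0, Fm.Free, At.fm]) (fun i => nf_n2o1 (by omega))
    (fun i => nf_n2o1 (by omega)) (fun i => nf_n2o1 (by omega)) hz b4
  have h0 : PP Γ (fun i => (D i).L) fun i => inst 29 (z i) γ0 := by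
    obtain ⟨C, hC⟩ := g1.sp.right.left
    exact ⟨C, fun i => (Proves.ax (hA i)).mono (hC i)⟩
  exact (g1.s (PP.k (sp_chi D) h0)).s hAf

end Pool.Agent.T9h80.IP
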